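import Pool.Agent.H95.WC.Defs
import Pool.Agent.H95.DC.CB
import Pool.Agent.H91.QS.Main

/-!
# Weight complexes and coverings of affine spaces
-/

set_option autoImplicit false
set_option linter.unusedSectionVars false

open CategoryTheory Limits Pretriangulated MonoidalCategory AlgebraicGeometry MvPolynomial
  Pool.Agent.Y116.UV Pool.Agent.Z125.UN Pool.Agent.W5h93.EV Pool.Agent.W5h93.EX
  Pool.Agent.W5h93.WC Pool.Agent.W5h68.SP Pool.Agent.W5h68.CP Pool.Agent.W5h93.QD
  Pool.Agent.H95.DC Pool.Agent.H91.QS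

universe v u

namespace Pool.Agent.H95.WC

section class_

variable {k : Type} [Field k]

/-- The closure properties of `CBuilt`. -/
structure CovC (P : Sch k → Prop) : Prop extends CovPN P where
  cyclic : Coverings P

/-- The class itself has the closure properties. -/
theorem covC_built (n : ℕ) : CovC (CBuilt (k := k) n) where
  iso {X Y} hX e h := .iso X Y hX e h
  total {Z X U} i j hX ht h1 h2 := .total Z X U i j hX ⟨ht.closed, ht.opened, ht.compl⟩ h1 h2
  opened {Z X U} i j hX ht h1 h2 := .opened Z X U i j hX ⟨ht.closed, ht.opened, ht.compl⟩ h1 h2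
  closed {Z X U} i j hX ht h1 h2 := .closed Z X U i j hX ⟨ht.closed, ht.opened, ht.compl⟩ h1 h2
  space m := by
    have h1 : CBuilt n (aff k k) := by
      refine .dim _ (ft_aff True) ?_
      rw [topDim_aff, ringKrullDim_eq_zero_of_field]
      exact_mod_cast Nat.zero_le n
    have h2 : CBuilt n (aff k (Jou (f1 k m))) :=
      .bundle k (m + 1) (f1 k m) (aff k k) (compl_one k m) h1
    have : Algebra.FiniteType k (Jou (f1 k m)) :=
      Algebra.FiniteType.trans (S := k) inferInstance inferInstance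
    exact .iso (aff k (Jou (f1 k m))) (aff k (MvPolynomial (Fin m) k)) (ft_aff True)
      ⟨(affIso ((jouOne k m).restrictScalars k)).symm⟩ h2
  jouanolou A _ _ _ m f U j h1 h2 h3 := .base A m f U ⟨j, h1, h2⟩ h3
  bundle A _ _ _ m f U j h1 h2 h3 := .bundle A m f U ⟨j, h1, h2⟩ h3
  torus A _ _ _ h := .torus A h
  cover A _ _ _ S m f h1 h2 h3 := .cover A S m f h1 h2 h3
  zero A _ _ _ S m f h1 h2 h3 := .zero A S m f h1 h2 h3
  cyclic A _ _ _ d u hd hu h := .cyclic A d u hd hu h

/-- The properties with the closure properties which are true in dimension at most `n` are true for the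
class. -/
theorem of_cbuilt {P : Sch k → Prop} (hP : CovC P) {n : ℕ}
    (h : ∀ X : Sch k, FT True X → topologicalKrullDim X.left ≤ n → P X) (X : Sch k)
    (hX : CBuilt n X) : P X := by
  induction hX with
  | dim X h1 h2 => exact h X h1 h2
  | iso X Y h1 h2 _ ih => exact hP.iso h1 h2 ih
  | total Z X U i j h1 h2 _ _ ih1 ih2 => exact hP.total i j h1 ⟨h2.1, h2.2.1, h2.2.2⟩ ih1 ih2
  | opened Z X U i j h1 h2 _ _ ih1 ih2 => exact hP.opened i j h1 ⟨h2.1, h2.2.1, h2.2.2⟩ ih1 ih2
  | closed Z X U i j h1 h2 _ _ ih1 ih2 => exact hP.closed i j h1 ⟨h2.1, h2.2.1, h2.2.2⟩ ih1 ih2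
  | bundle A m f U h1 _ ih =>
    obtain ⟨j, h1, h2⟩ := h1
    exact hP.bundle A m f U j h1 h2 ih
  | base A m f U h1 _ ih =>
    obtain ⟨j, h1, h2⟩ := h1
    exact hP.jouanolou A m f U j h1 h2 ih
  | torus A _ ih => exact hP.torus A ih
  | cyclic A d u hd hu _ ih => exact hP.cyclic A d u hd hu ih
  | cover A S m f h1 _ _ ih1 ih2 => exact hP.cover A S m f h1 ih1 ih2
  | zero A S m f h1 _ _ ih1 ih2 => exact hP.zero A S m f h1 ih1 ih2

/-- Coverings in the class. -/
theorem covMembers [PerfectField k] : CovMembers k where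
  smooth S N m f := smooth_covS S f
  forms n S hS a b c t hc := by
    have hC := covC_built (k := k) n
    have h1 : CBuilt n (zeroS (bq t)) :=
      (Pool.Agent.N882.UE.dim_bil hC.toBnd n).mp (fun X => .dim X) a b c t hc
    exact .cover _ S c (bq t) hS (iso_alg hC.toUni
      (renameEquiv k (Fintype.equivFin (Fin a ⊕ Fin b)).symm) (hC.space _)) h1
  small n S hS N m f hN := by
    have hC := covC_built (k := k) n
    have h1 : CBuilt n (zeroS f) := by
      rcases hN with hN | hN
      · exact zeroS_dim (covP_of_covPN hC.toCovPN) (fun X => .dim X) hN f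
      · exact .dim _ (ft_aff True) hN
    exact .cover _ S m f hS (hC.space _) h1
  quadrics h2 n S hS N m q b hq hb := by
    have hC := covC_built (k := k) n
    have h1 := quad_of_dim hC.toBnd (doubleCovers_of hC.toBnd hC.cyclic) h2
      (n := n) (fun X => .dim X) (A := k) (s := 0) (r := n)
      (by rw [ringKrullDim_eq_zero_of_field]; exact le_rfl) (by omega) b q hb hq
    have h3 : CBuilt n (zeroS (Fin.append q b)) := by
      have h4 : Set.range (Fin.append q b) = Set.range b ∪ Set.range q := by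
        ext g
        constructor
        · rintro ⟨i, rfl⟩
          refine Fin.addCases (fun i => ?_) (fun i => ?_) i
          · rw [Fin.append_left]
            exact Or.inr ⟨i, rfl⟩
          · rw [Fin.append_right]
            exact Or.inl ⟨i, rfl⟩
        · rintro (⟨i, rfl⟩ | ⟨i, rfl⟩)
          · exact ⟨Fin.natAdd _ i, Fin.append_right _ _ _⟩
          · exact ⟨Fin.castAdd _ i, Fin.append_left _ _ _⟩
      change CBuilt n (aff k (_ ⧸ Ideal.span (Set.range (Fin.append q b))))
      rw [h4]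
      exact h1
    exact .cover _ S _ _ hS (hC.space _) h3

end class_

section reduction

variable {k : Type} [Field k] [PerfectField k] {Q C P : Sch k → Prop}

lemma frac_of_prime (hk : IsPrimeField k) : Pool.Agent.Q193.LT.Frac k := fun r => by
  obtain ⟨a, b, hb, h⟩ := hk r
  exact ⟨b, a, isUnit_iff_ne_zero.mpr hb, h.symm⟩

/-- **The reduction to coverings of affine spaces.** -/
theorem covReduces (hP : CovC P) (hQ : IsClass Q) (h : ∀ X, Q X → (C X ↔ P X)) :
    CovReduces Q C P := by
  have hcov := covP_of_covPN hP.toCovPN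
  have h1 : ∀ n, ForClass Q C n ↔ ForClass Q P n := fun n =>
    forall_congr' fun X => forall_congr' fun hX => forall_congr' fun _ => h X hX
  have h2 : (∀ X, Q X → C X) ↔ ∀ X, Q X → P X :=
    forall_congr' fun X => forall_congr' fun hX => h X hX
  have key : ∀ n, ModelsIn Q n → (ForClass Q C n ↔
      ∀ X : Sch k, FT True X → topologicalKrullDim X.left ≤ n → P X) := fun n hM =>
    ⟨fun hn => devissage hP.toBnd hQ hM ((h1 n).mp hn),
      fun h3 => (h1 n).mpr fun X hX hn => h3 X (hQ.ft hX) hn⟩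
  have built : ∀ n, ModelsIn Q n → ForClass Q C n → ∀ X : Sch k, CBuilt n X → P X :=
    fun n hM hn => of_cbuilt hP ((key n hM).mp hn)
  refine ⟨fun n hM => ⟨built n hM, fun h3 => (key n hM).mpr fun X hX hd => h3 X (.dim X hX hd)⟩,
    fun n hM hn X hQX hX => (h X hQX).mpr (built n hM hn X hX),
    fun n hM S hS => (key n hM).trans (dim_cov hcov S hS n),
    fun n S hS h3 => (h1 n).mpr fun X hX hn => (dim_cov hcov S hS n).mpr h3 X (hQ.ft hX) hn,
    fun S hS N m f => covS_iff hcov S (unitDiff_field S) hS f, fun hM hk S hS => ?_,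
    fun hk S hS h3 => h2.mpr fun X hX =>
      (frac_cov hcov (frac_of_prime hk) S hS).mpr h3 X (hQ.ft hX)⟩
  refine h2.trans (Iff.trans ⟨fun h3 => ?_, fun h3 X hX => h3 X (hQ.ft hX)⟩
    (frac_cov hcov (frac_of_prime hk) S hS))
  rw [Pool.Agent.Q193.LT.all_iff hP.toBnd]
  intro a b c T
  exact (Pool.Agent.W5h93.EX.all_iff hP.toBnd hQ hM).mp h3 ⟨a, b, c, T⟩

end reduction

section wc

variable {k : Type} [Field k] {𝒜 : Type u} [Category.{v} 𝒜] [Preadditive 𝒜] [HasZeroObject 𝒜]
  [HasBinaryBiproducts 𝒜] [MonoidalCategory 𝒜] [MonoidalPreadditive 𝒜] {T : ℤ → 𝒜}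
  {W : Sch k → HomotopyCategory 𝒜 (ComplexShape.up ℤ)} {V : Cls 𝒜}

/-- Null weight complexes. -/
theorem fla_wc (hT : ∀ (j : ℤ) (A : 𝒜), V.prop A → V.prop (A ⊗ T j)) (h0 : V.prop (T 0))
    (hW : IsFlatWeightComplex T W) : Fla True fun X : Sch k => Null V.prop (W X).as where
  toBnd := bnd_wc hT h0 hW.toIsWeightComplex
  clopen i hX hc ho h := by
    obtain ⟨s, r, hs⟩ := hW.clopen i hX hc ho
    exact Null.of_retract s r hs h
  fibres q r hV hS hq hr := by
    obtain ⟨⟨e⟩, ⟨e'⟩⟩ := hW.fibres q r hV hS hq hr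
    exact ⟨fun h => (h.map _ (hT _)).of_iso e.symm, fun h => (h.map _ (hT _)).of_iso e'.symm⟩

theorem covC_wc (hT : ∀ (j : ℤ) (A : 𝒜), V.prop A → V.prop (A ⊗ T j)) (h0 : V.prop (T 0))
    (hW : IsFlatWeightComplex T W) (hc : HasCoverings W) :
    CovC fun X : Sch k => Null V.prop (W X).as where
  toCovPN := covPN_of_covP (covP_of_fla (fla_wc hT h0 hW))
  cyclic := coverings_null hc

/-- **The reduction to coverings, for any class of motives closed under sums, retracts and Tate
twists.** -/
theorem covReduces_wc [PerfectField k]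
    (hT : ∀ (j : ℤ) (A : 𝒜), V.prop A → V.prop (A ⊗ T j)) (h0 : V.prop (T 0))
    (hW : IsFlatWeightComplex T W) (hc : HasCoverings W) {Q : Sch k → Prop} (hQ : IsClass Q)
    (h : Sch k → 𝒜) (hh : ∀ X, Q X → Nonempty (W X ≅ cpx (h X))) :
    CovReduces Q (fun X => V.prop (h X)) (fun X => Null V.prop (W X).as) :=
  covReduces (covC_wc hT h0 hW hc) hQ fun X hX => by
    obtain ⟨e⟩ := hh X hX
    rw [← null_cpx]
    exact ⟨fun h1 => h1.of_iso e.symm, fun h1 => h1.of_iso e⟩

end wc

end Pool.Agent.H95.WC
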