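import Pool.Agent.H95.WC.Main
import Pool.Agent.H91.QS.Murre

/-!
# Motives of small dimension, Murre's conjectures and coverings
-/

set_option autoImplicit false
set_option linter.unusedSectionVars false

open CategoryTheory Limits Pretriangulated MonoidalCategory AlgebraicGeometry Pool.Agent.Y116.UV
  Pool.Agent.Z125.UN Pool.Agent.W5h93.EV Pool.Agent.W5h93.EX Pool.Agent.W5h93.WC
  Pool.Agent.W5h68.CP Pool.Agent.H95.DC Pool.Agent.H91.QS MvPolynomial

universe v u v' u'

namespace Pool.Agent.H95.WC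

section gen

variable {k : Type} [Field k] {𝒜 : Type u} [Category.{v} 𝒜] [Preadditive 𝒜] [HasZeroObject 𝒜]
  [HasBinaryBiproducts 𝒜] [MonoidalCategory 𝒜] [MonoidalPreadditive 𝒜] {T : ℤ → 𝒜}
  {W : Sch k → HomotopyCategory 𝒜 (ComplexShape.up ℤ)} {Q : Sch k → Prop} {h : Sch k → 𝒜}

/-- **The motives of the schemes in `CBuilt n` are motives of dimension at most `n`.** -/
theorem dimGen_of_cbuilt [PerfectField k] (hW : IsFlatWeightComplex T W) (hc : HasCoverings W)
    (hQ : IsClass Q) (hpt : Q (aff k k)) (hh : ∀ X, Q X → Nonempty (W X ≅ cpx (h X))) {n : ℕ}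
    (hM : ModelsIn Q n) {X : Sch k} (hX : Q X) (hb : CBuilt n X) : DimGen T h Q n (h X) := by
  let V : Cls 𝒜 := dimCls (T := T) (h := h) (Q := Q) (n := n) ⟨_, dimGen_point hpt n⟩
  have h0 : V.prop (T 0) := by
    obtain ⟨e⟩ := hh _ hpt
    obtain ⟨e'⟩ := hW.point
    exact (null_cpx (V := V)).mp
      (((null_cpx (V := V)).mpr (dimGen_point (T := T) (h := h) hpt n)).of_iso (e.symm ≪≫ e'))
  have h1 : CovReduces Q (fun X => V.prop (h X)) (fun X => Null V.prop (W X).as) :=
    covReduces_wc (V := V) (fun l A hA => Gen.twist hA l) h0 hW hc hQ h hh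
  exact h1.of_dim n hM (fun Y hY hYn => Gen.of (Q := fun X => Q X ∧
    topologicalKrullDim X.left ≤ n) ⟨hY, hYn⟩) X hX hb

end gen

section point

variable {k : Type} [Field k]

/-- The point is an open and closed subscheme of a covering. -/
lemma point_of_cov {P : Sch k → Prop}
    (hi : ∀ {X Y : Sch k}, FT True X → Nonempty (X ≅ Y) → P X → P Y)
    (hc : ∀ {Z X : Sch k} (i : Z ⟶ X), FT True X → IsClo i → IsOpn i → P X → P Z)
    (S : Finset k) (hS : S.Nonempty) (m : ℕ) (h : FormCoverings S m P) : P (aff k k) := by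
  obtain ⟨S', c, hc', rfl⟩ := hS.exists_cons_eq
  let D := MvPolynomial (Fin 0) (MvPolynomial (Fin 0 ⊕ Fin 0) k)
  let t : Fin 0 → Fin 0 → Fin 0 → k := fun _ _ _ => 0
  have h1 : P (covS (Finset.cons c S' hc') (bq t)) := h 0 0 0 t (Nat.zero_le m)
  have e1 : Cov (Finset.cons c S' hc') (bq t) ≃ₐ[k] AdjoinRoot (sp D (Finset.cons c S' hc')) :=
    AdjoinRoot.algEquivOfEq k _ _ (by
      have h2 : lin (bq t) = 0 := Finset.sum_eq_zero fun l _ => l.elim0
      rw [h2, Polynomial.C_0, sub_zero])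
  have e2 := e1.trans (crtA D S' c hc' (unitDiff_field _))
  have hD : Algebra.FiniteType k D :=
    Algebra.FiniteType.trans (S := MvPolynomial (Fin 0 ⊕ Fin 0) k) inferInstance inferInstance
  have hD' : Algebra.FiniteType k (AdjoinRoot (sp D S')) :=
    Algebra.FiniteType.trans (S := D) inferInstance inferInstance
  have h2 : P (aff k (D × AdjoinRoot (sp D S'))) := hi (ft_aff True) ⟨(affIso e2).symm⟩ h1
  have h3 : P (aff k D) := hc _ (ft_aff True) (closed_affMap _ Prod.fst_surjective)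
    (open_fst D (AdjoinRoot (sp D S'))) h2
  have e3 : D ≃ₐ[k] k := ((isEmptyAlgEquiv (MvPolynomial (Fin 0 ⊕ Fin 0) k)
    (Fin 0)).restrictScalars k).trans (isEmptyAlgEquiv k (Fin 0 ⊕ Fin 0))
  exact hi (ft_aff True) ⟨(affIso e3).symm⟩ h3

end point

section murre

variable {k : Type} [Field k] {𝒜 : Type u} [Category.{v} 𝒜] [Preadditive 𝒜] [HasZeroObject 𝒜]
  [HasBinaryBiproducts 𝒜] [IsIdempotentComplete 𝒜] [MonoidalCategory 𝒜] [MonoidalPreadditive 𝒜]
  {𝒢 : Type u'} [Category.{v'} 𝒢] [Preadditive 𝒢] {T : ℤ → 𝒜} {H : ℤ → 𝒜 ⥤ 𝒢}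
  {W : Sch k → HomotopyCategory 𝒜 (ComplexShape.up ℤ)}

variable (hT : IsTate T) (hH : IsHomology T H) (hW : IsFlatWeightComplex T W) {Q : Sch k → Prop}
  (hQ : IsClass Q) {h : Sch k → 𝒜} (hh : ∀ X, Q X → Nonempty (W X ≅ cpx (h X)))

include hT hH hW hQ hh

lemma murre_reduces [PerfectField k] [RightRigidCategory 𝒜] (hc : HasCoverings W) (n : ℕ)
    (hne : ∃ A : 𝒜, DimGen T h Q n A) (h0 : Strong H (DimGen T h Q n) (T 0)) :
    CovReduces Q (fun X => Strong H (DimGen T h Q n) (h X))
      (fun X => Null (Strong H (DimGen T h Q n)) (W X).as) :=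
  have _hadd := hH.additive
  covReduces_wc (V := strongCls (H := H) hne (fun _ _ => Gen.sum) Gen.ret)
    (fun l _ hA => Strong.twist (fun _ l hA => hA.twist l) hT hH hA l) h0 hW hc hQ h hh

/-- **The strong form of Murre's conjectures for motives of dimension at most `n`, coverings, and the
class `CBuilt n`.** -/
theorem murre_cbuilt [PerfectField k] [RightRigidCategory 𝒜] (hc : HasCoverings W)
    (hpt : Q (aff k k)) (n : ℕ) (hM : ModelsIn Q n) :
    ((∀ M, DimGen T h Q n M → Strong H (DimGen T h Q n) M) ↔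
      ∀ X : Sch k, CBuilt n X → Null (Strong H (DimGen T h Q n)) (W X).as) ∧
    ∀ S : Finset k, 2 ≤ S.card →
      ((∀ M, DimGen T h Q n M → Strong H (DimGen T h Q n) M) ↔
        FormCoverings S (n + 2) fun X => Null (Strong H (DimGen T h Q n)) (W X).as) := by
  have hadd := hH.additive
  have hne : ∃ A : 𝒜, DimGen T h Q n A := ⟨_, dimGen_point hpt n⟩
  let V : Cls 𝒜 := strongCls (H := H) hne (fun _ _ => Gen.sum) Gen.ret
  -- the conjecture and the varieties
  have key : (∀ M, DimGen T h Q n M → Strong H (DimGen T h Q n) M) ↔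
      ForClass Q (fun X => Strong H (DimGen T h Q n) (h X)) n := by
    constructor
    · exact fun h1 Y hY hYn => h1 _ (Gen.of (Q := fun X => Q X ∧
        topologicalKrullDim X.left ≤ n) ⟨hY, hYn⟩)
    · exact fun h1 M hM => hM _ (fun A B hA hB => Strong.sum (Gen.sum) hA hB)
        (fun A l hA => Strong.twist (fun _ l hA => hA.twist l) hT hH hA l)
        (fun A B s r hs hB => Strong.retract Gen.ret s r hs hB) fun X hX => h1 X hX.1 hX.2
  have point : Null V.prop (W (aff k k)).as → V.prop (T 0) := by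
    intro h1
    obtain ⟨e⟩ := hW.point
    exact (null_cpx (V := V)).mp (h1.of_iso (V := V) e)
  have hpt0 : V.prop (h (aff k k)) → V.prop (T 0) := by
    intro h1
    obtain ⟨e⟩ := hh _ hpt
    exact point (((null_cpx (V := V)).mpr h1).of_iso (V := V) e.symm)
  have red : V.prop (T 0) → CovReduces Q (fun X => Strong H (DimGen T h Q n) (h X))
      (fun X => Null (Strong H (DimGen T h Q n)) (W X).as) :=
    murre_reduces hT hH hW hQ hh hc n hne
  refine ⟨⟨fun h1 => ?_, fun h1 => ?_⟩, fun S hS => ⟨fun h1 => ?_, fun h1 => ?_⟩⟩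
  · exact ((red (hpt0 (h1 _ (dimGen_point hpt n)))).dim_iff n hM).mp (key.mp h1)
  · refine key.mpr (((red (point (h1 _ ?_))).dim_iff n hM).mpr h1)
    exact .dim _ (ft_aff True) (dim_point n)
  · exact ((red (hpt0 (h1 _ (dimGen_point hpt n)))).iff_coverings n hM S hS).mp (key.mp h1)
  · refine key.mpr (((red (point ?_)).iff_coverings n hM S hS).mpr h1)
    refine point_of_cov (P := fun X => Null V.prop (W X).as) ?_ ?_ S
      (Finset.card_pos.mp (by omega)) _ h1
    · intro X Y hX e h2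
      obtain ⟨e'⟩ := hW.iso hX e
      exact h2.of_iso (V := V) e'
    · intro Z X i hX hcl ho h2
      obtain ⟨s, r, hs⟩ := hW.clopen i hX hcl ho
      exact Null.of_retract (V := V) s r hs h2

end murre

end Pool.Agent.H95.WC
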