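import Pool.Agent.H91.L.W5h93_WC_Defs
import Pool.Agent.H79.L.W5h68_SP_CycDefs
import Pool.Agent.H95.DC.Defs
import Pool.Agent.H95.DC.FibDefs

/-!
# Weight complexes and coverings of affine spaces: definitions
-/

set_option autoImplicit false

open CategoryTheory Limits MonoidalCategory AlgebraicGeometry MvPolynomial Pool.Agent.Y116.UV
  Pool.Agent.W5h93.EV Pool.Agent.W5h93.EX Pool.Agent.W5h93.WC Pool.Agent.W5h68.SP
  Pool.Agent.H95.DC

universe v u

namespace Pool.Agent.H95.WC

section

variable (k : Type) [Field k] {A : Type} [CommRing A] [Algebra k A] {m : ℕ} (f : Fin m → A)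

/-- The covering `∏_{c ∈ S} (w - c) = ∑ x_l f_l` of `𝔸^m_A`, with the coordinates `x_1, …, x_m`. -/
noncomputable def relCov (S : Finset k) : Sch k := aff k (Cov S f)

/-- The closed subscheme `f = 0` of `Spec A`. -/
noncomputable def relZero : Sch k := aff k (A ⧸ Ideal.span (Set.range f))

/-- The affine bundle `Spec A[w_1, …, w_m] / (∑ f_l w_l - 1)` over the open subscheme of `Spec A` where
`f_1, …, f_m` are not all zero. -/
noncomputable def relJou : Sch k := aff k (Jou f)

end

/-- The smallest class of schemes over the field `k` which contains the separated schemes of finite type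
of dimension at most `n` (`dim`), is closed under isomorphisms, and has the following properties.

* If two of `X`, `Z`, `U` are in the class, then the third is in the class, for a closed subscheme `Z` of a
  separated scheme `X` of finite type and its complement `U` (`total`, `opened`, `closed`).
* For functions `f_1, …, f_m` on `Spec A` the scheme `U` where they are not all zero is in the class if
  and only if the affine bundle `relJou k f → U` is in the class (`bundle`, `base`).
* If `Spec A × 𝔾_m` is in the class, then `Spec A` is in the class (`torus`). If the covering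
  `s ^ d = u` of `Spec A` is in the class, `u` a unit, then `Spec A` is in the class (`cyclic`).
* If `Spec A` and its closed subscheme `f_1 = … = f_m = 0` are in the class, then the covering
  `∏_{c ∈ S} (w - c) = ∑ x_l f_l` of `𝔸^m_A` is in the class, for every finite non-empty `S ⊆ k`; if
  `Spec A` and the covering for some `S` with at least two elements are in the class, then the closed
  subscheme `f = 0` of `Spec A` is in the class (`cover`, `zero`). -/
inductive CBuilt {k : Type} [Field k] (n : ℕ) : Sch k → Prop
  | dim (X : Sch k) : FT True X → topologicalKrullDim X.left ≤ n → CBuilt n X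
  | iso (X Y : Sch k) : FT True X → Nonempty (X ≅ Y) → CBuilt n X → CBuilt n Y
  | total (Z X U : Sch k) (i : Z ⟶ X) (j : U ⟶ X) : FT True X → Decomp i j → CBuilt n Z →
      CBuilt n U → CBuilt n X
  | opened (Z X U : Sch k) (i : Z ⟶ X) (j : U ⟶ X) : FT True X → Decomp i j → CBuilt n Z →
      CBuilt n X → CBuilt n U
  | closed (Z X U : Sch k) (i : Z ⟶ X) (j : U ⟶ X) : FT True X → Decomp i j → CBuilt n X →
      CBuilt n U → CBuilt n Z
  | bundle (A : Type) [CommRing A] [Algebra k A] [Algebra.FiniteType k A] (m : ℕ) (f : Fin m → A)
      (U : Sch k) : Compl f U → CBuilt n U → CBuilt n (relJou k f)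
  | base (A : Type) [CommRing A] [Algebra k A] [Algebra.FiniteType k A] (m : ℕ) (f : Fin m → A)
      (U : Sch k) : Compl f U → CBuilt n (relJou k f) → CBuilt n U
  | torus (A : Type) [CommRing A] [Algebra k A] [Algebra.FiniteType k A] :
      CBuilt n (aff k (LaurentPolynomial A)) → CBuilt n (aff k A)
  | cyclic (A : Type) [CommRing A] [Algebra k A] [Algebra.FiniteType k A] (d : ℕ) (u : A) : 0 < d →
      IsUnit u → CBuilt n (aff k (Cyc A d u)) → CBuilt n (aff k A)
  | cover (A : Type) [CommRing A] [Algebra k A] [Algebra.FiniteType k A] (S : Finset k) (m : ℕ)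
      (f : Fin m → A) : S.Nonempty → CBuilt n (aff k A) → CBuilt n (relZero k f) →
      CBuilt n (relCov k f S)
  | zero (A : Type) [CommRing A] [Algebra k A] [Algebra.FiniteType k A] (S : Finset k) (m : ℕ)
      (f : Fin m → A) : 2 ≤ S.card → CBuilt n (aff k A) → CBuilt n (relCov k f S) →
      CBuilt n (relZero k f)

/-- `P` is true for the coverings `∏_{c ∈ S} (w - c) = t(x, y, z)` of affine spaces over `k`, for all
trilinear forms `t` over `k` with at most `m` variables `z`. -/
def FormCoverings {k : Type} [Field k] (S : Finset k) (m : ℕ) (P : Sch k → Prop) : Prop :=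
  ∀ (a b c : ℕ) (t : Fin a → Fin b → Fin c → k), c ≤ m → P (covS S (bq t))

/-- `P` is true for the coverings `∏_{c ∈ S} (w - c) = ∑_l z_l ∑_{(i, j) ∈ E_l} x_i y_j` of affine spaces
over `k`, for all finite sets `E_1, …, E_c` of pairs. -/
def GraphCoverings {k : Type} [Field k] (S : Finset k) (P : Sch k → Prop) : Prop :=
  ∀ (a b c : ℕ) (E : Fin c → Finset (Fin a × Fin b)), P (covS S (bf k E))

/-- **The reduction to coverings of affine spaces** of the property `C` of the schemes of the class `Q`.
The property `P` extends `C` to all separated schemes of finite type. -/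
structure CovReduces {k : Type} [Field k] (Q C P : Sch k → Prop) : Prop where
  /-- the schemes of dimension at most `n` and the class `CBuilt n` -/
  dim_iff : ∀ n, ModelsIn Q n → (ForClass Q C n ↔ ∀ X : Sch k, CBuilt n X → P X)
  /-- the schemes of the class `Q` in `CBuilt n`, of any dimension -/
  of_dim : ∀ n, ModelsIn Q n → ForClass Q C n → ∀ X : Sch k, Q X → CBuilt n X → C X
  /-- the schemes of dimension at most `n` and coverings -/
  iff_coverings : ∀ n, ModelsIn Q n → ∀ S : Finset k, 2 ≤ S.card →
    (ForClass Q C n ↔ FormCoverings S (n + 2) P)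
  of_coverings : ∀ (n : ℕ) (S : Finset k), 2 ≤ S.card → FormCoverings S (n + 2) P → ForClass Q C n
  /-- coverings and zero schemes -/
  zeros : ∀ S : Finset k, 2 ≤ S.card → ∀ (N m : ℕ) (f : Fin m → MvPolynomial (Fin N) k),
    P (covS S f) ↔ P (zeroS f)
  /-- prime fields and coverings with the coefficients zero and one -/
  iff_graphs : (∀ n, ModelsIn Q n) → IsPrimeField k → ∀ S : Finset k, 2 ≤ S.card →
    ((∀ X, Q X → C X) ↔ GraphCoverings S P)
  of_graphs : IsPrimeField k → ∀ S : Finset k, 2 ≤ S.card → GraphCoverings S P →
    ∀ X, Q X → C X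

/-- Coverings in the class `CBuilt n`, for all `n` and all finite non-empty sets `S ⊆ k`. They are smooth
over `k`. -/
structure CovMembers (k : Type) [Field k] : Prop where
  smooth : ∀ (S : Finset k) (N m : ℕ) (f : Fin m → MvPolynomial (Fin N) k), Smooth (covS S f).hom
  /-- coverings given by trilinear forms with at most `n + 2` variables in the third block -/
  forms : ∀ (n : ℕ) (S : Finset k), S.Nonempty → FormCoverings S (n + 2) (CBuilt n)
  /-- coverings given by arbitrary polynomials in at most `n + 1` variables, or with a zero scheme of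
  dimension at most `n` -/
  small : ∀ (n : ℕ) (S : Finset k), S.Nonempty → ∀ (N m : ℕ) (f : Fin m → MvPolynomial (Fin N) k),
    (N ≤ n + 1 ∨ topologicalKrullDim (zeroS f).left ≤ n) → CBuilt n (covS S f)
  /-- coverings given by `n + 1` polynomials of degree at most two and any number of polynomials of
  degree at most one, in any number of variables -/
  quadrics : (2 : k) ≠ 0 → ∀ (n : ℕ) (S : Finset k), S.Nonempty →
    ∀ (N m : ℕ) (q : Fin (n + 1) → MvPolynomial (Fin N) k) (b : Fin m → MvPolynomial (Fin N) k),
      (∀ l, (q l).totalDegree ≤ 2) → (∀ l, (b l).totalDegree ≤ 1) →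
        CBuilt n (covS S (Fin.append q b))

section

variable {k : Type} [Field k] {𝒜 : Type u} [Category.{v} 𝒜] [Preadditive 𝒜] [HasZeroObject 𝒜]
  [HasBinaryBiproducts 𝒜] [MonoidalCategory 𝒜] [MonoidalPreadditive 𝒜]

/-- `W X` are the weight complexes with compact support of the separated schemes `X` of finite type over
`k`, with the properties `IsWeightComplex` and the following. The weight complex of an open and closed
subscheme of `X` is a direct factor of the weight complex of `X`. If `q : V ⟶ S` is flat and all its
fibres are affine spaces of dimension `r`, then the weight complexes of `V` and of `S` are the same up to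
the Tate twist `T r` (flat pull-back and localization). -/
structure IsFlatWeightComplex (T : ℤ → 𝒜)
    (W : Sch k → HomotopyCategory 𝒜 (ComplexShape.up ℤ)) : Prop extends IsWeightComplex T W where
  clopen : ∀ {Z X : Sch k} (i : Z ⟶ X), FT True X → IsClo i → IsOpn i →
    ∃ (s : W Z ⟶ W X) (r : W X ⟶ W Z), s ≫ r = 𝟙 _
  fibres : ∀ {V S : Sch k} (q : V ⟶ S) (r : ℕ), FT True V → FT True S → Flat q.left →
    AffineFibres q.left r → Nonempty (W V ≅ tens (T r) (W S)) ∧ Nonempty (W S ≅ tens (T (-r)) (W V))

end

end Pool.Agent.H95.WC
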