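import Pool.Agent.H95.WC.Murre
import Pool.Agent.H91.QS.Ord

/-!
# Ordinary places for motives and coverings
-/

set_option autoImplicit false
set_option linter.unusedSectionVars false

open CategoryTheory Limits MonoidalCategory AlgebraicGeometry Filter Pool.Agent.Y116.UV
  Pool.Agent.Z125.UN Pool.Agent.W5h93.EV Pool.Agent.W5h93.EX Pool.Agent.W5h93.WC
  Pool.Agent.W5h68.CP Pool.Agent.H91.QS

universe v u

namespace Pool.Agent.H95.WC

variable {𝒜 : Type u} [Category.{v} 𝒜] [Preadditive 𝒜] [HasBinaryBiproducts 𝒜]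
  [MonoidalCategory 𝒜] {ι : Type} {D : MotSlopes 𝒜 ι} {T : ℤ → 𝒜}
  {k : Type} [Field k] [PerfectField k] [HasZeroObject 𝒜] [MonoidalPreadditive 𝒜]
  [IsIdempotentComplete 𝒜] {W : Sch k → HomotopyCategory 𝒜 (ComplexShape.up ℤ)}
  {Q : Sch k → Prop} {h : Sch k → 𝒜}

/-- **The reduction for a filter of sets of places.** -/
theorem cord_filter (hD : D.IsRealization T) (hW : IsFlatWeightComplex T W) (hc : HasCoverings W)
    (hQ : IsClass Q) (hh : ∀ X, Q X → Nonempty (W X ≅ cpx (h X))) {𝓕 : Filter ι}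
    (hF : 𝓕 ≤ cofinite) :
    CovReduces Q (fun X => D.OrdAlong 𝓕 (h X)) (fun X => Null (D.OrdAlong 𝓕) (W X).as) :=
  covReduces_wc (V := ordCls hD hF) (fun l _ hA => OrdAlong.twist hD hF l hA)
    (fun j => (hD.unit j).filter_mono hF) hW hc hQ h hh

/-- **Finitely many varieties of dimension at most `n` are sufficient.** -/
theorem cord_finite (hD : D.IsRealization T) (hW : IsFlatWeightComplex T W) (hc : HasCoverings W)
    (hQ : IsClass Q) (hh : ∀ X, Q X → Nonempty (W X ≅ cpx (h X))) {n : ℕ} (hM : ModelsIn Q n)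
    {M : 𝒜} (hG : Gen T h (fun X => Q X ∧ CBuilt n X) M) {j : ℤ} {s : ι → Multiset ℚ}
    {w : Multiset ℚ} (hs : D.IsSummand M j s w) :
    ∃ L : List (Sch k × ℤ), (∀ x ∈ L, Q x.1 ∧ topologicalKrullDim x.1.left ≤ n) ∧
      ∀ᶠ v in cofinite, (∀ x ∈ L, D.Ord (h x.1) x.2 v) → s v = w := by
  let S : Set (𝒜 × ℤ) := {y | ∃ X, Q X ∧ topologicalKrullDim X.left ≤ n ∧ y.1 = h X}
  have hF : ordFilter D S ≤ cofinite := inf_le_left
  have h1 : ∀ X, Q X → topologicalKrullDim X.left ≤ n → D.OrdAlong (ordFilter D S) (h X) := by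
    intro X hX hXn i
    exact (inf_le_right : ordFilter D S ≤ _) (mem_iInf_of_mem
      (⟨(h X, i), X, hX, hXn, rfl⟩ : S) (mem_principal_self _))
  have h2 : D.OrdAlong (ordFilter D S) M :=
    ordAlong_gen hD hF (fun X hX => (cord_filter hD hW hc hQ hh hF).of_dim n hM h1 X hX.1 hX.2) hG
  obtain ⟨L, hL, h3⟩ := mem_ordFilter (h2 j)
  choose f hf using fun x : {x // x ∈ L} => hL x.1 x.2
  refine ⟨L.attach.map fun x => (f x, x.1.2), ?_, ?_⟩
  · intro y hy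
    obtain ⟨x, -, rfl⟩ := List.mem_map.mp hy
    exact ⟨(hf x).1, (hf x).2.1⟩
  · filter_upwards [h3, summand_eq hs] with v h3 h4 h5
    refine h4 (h3 fun x hx => ?_)
    have h6 := h5 (f ⟨x, hx⟩, x.2) (List.mem_map.mpr ⟨⟨x, hx⟩, List.mem_attach _ _, rfl⟩)
    have h7 := (hf ⟨x, hx⟩).2.2
    dsimp only at h6 h7
    rw [h7]
    exact h6

/-- **Common ordinary places.** -/
theorem cord_common_iff (hD : D.IsRealization T) (hW : IsFlatWeightComplex T W)
    (hc : HasCoverings W) (hQ : IsClass Q) (hh : ∀ X, Q X → Nonempty (W X ≅ cpx (h X))) {n : ℕ}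
    (hM : ModelsIn Q n) :
    D.HasCommon (Gen T h fun X => Q X ∧ topologicalKrullDim X.left ≤ n) ↔
      D.HasCommon (Gen T h fun X => Q X ∧ CBuilt n X) := by
  constructor
  · intro h1
    rw [hasCommon_iff] at h1 ⊢
    obtain ⟨𝒰, hU, h1⟩ := h1
    refine ⟨𝒰, hU, fun M hG => ordAlong_gen hD hU (fun X hX => ?_) hG⟩
    exact (cord_filter hD hW hc hQ hh hU).of_dim n hM
      (fun X hX hXn => h1 _ (Gen.of (Q := fun X => Q X ∧ topologicalKrullDim X.left ≤ n)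
        ⟨hX, hXn⟩)) X hX.1 hX.2
  · intro h1 L hL
    exact h1 L fun x hx V hs ht hr hv => hL x hx V hs ht hr fun X hX =>
      hv X ⟨hX.1, .dim X (hQ.ft hX.1) hX.2⟩

/-- Modulo the motives of a class with common ordinary places. -/
theorem cord_null_iff (hD : D.IsRealization T) (hW : IsFlatWeightComplex T W)
    (hc : HasCoverings W) (hQ : IsClass Q) (hh : ∀ X, Q X → Nonempty (W X ≅ cpx (h X))) {n : ℕ}
    (hM : ModelsIn Q n) :
    D.HasCommon (Gen T h fun X => Q X ∧ topologicalKrullDim X.left ≤ n) ↔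
      ∃ R : 𝒜 → Prop, D.HasCommon R ∧ ∀ X : Sch k, CBuilt n X → Null R (W X).as := by
  constructor
  · intro h1
    rw [hasCommon_iff] at h1
    obtain ⟨𝒰, hU, h1⟩ := h1
    refine ⟨D.OrdAlong 𝒰, hasCommon_iff.mpr ⟨𝒰, hU, fun M hM => hM⟩, ?_⟩
    exact ((cord_filter hD hW hc hQ hh hU).dim_iff n hM).mp fun X hX hXn => h1 _
      (Gen.of (Q := fun X => Q X ∧ topologicalKrullDim X.left ≤ n) ⟨hX, hXn⟩)
  · rintro ⟨R, hR, h2⟩
    rw [hasCommon_iff] at hR ⊢
    obtain ⟨𝒰, hU, h3⟩ := hR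
    refine ⟨𝒰, hU, fun M hG => ordAlong_gen hD hU (fun X hX => ?_) hG⟩
    refine ((cord_filter hD hW hc hQ hh hU).dim_iff n hM).mpr (fun Y hY => ?_) X hX.1 hX.2
    obtain ⟨σ, hσ⟩ := h2 Y hY
    refine ⟨σ, fun i => ?_⟩
    obtain ⟨C, a, b, hC, hab⟩ := hσ i
    exact ⟨C, a, b, h3 C hC, hab⟩

/-- **Common ordinary places and coverings.** -/
theorem cord_coverings (hD : D.IsRealization T) (hW : IsFlatWeightComplex T W)
    (hc : HasCoverings W) (hQ : IsClass Q) (hh : ∀ X, Q X → Nonempty (W X ≅ cpx (h X))) {n : ℕ}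
    {S : Finset k} (hS : 2 ≤ S.card)
    (h1 : ∃ R : 𝒜 → Prop, D.HasCommon R ∧ FormCoverings S (n + 2) fun X => Null R (W X).as) :
    D.HasCommon (Gen T h fun X => Q X ∧ topologicalKrullDim X.left ≤ n) := by
  obtain ⟨R, hR, h2⟩ := h1
  rw [hasCommon_iff] at hR ⊢
  obtain ⟨𝒰, hU, h3⟩ := hR
  refine ⟨𝒰, hU, fun M hG => ordAlong_gen hD hU (fun X hX => ?_) hG⟩
  refine (cord_filter hD hW hc hQ hh hU).of_coverings n S hS (fun a b c t ht => ?_) X hX.1 hX.2
  obtain ⟨σ, hσ⟩ := h2 a b c t ht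
  refine ⟨σ, fun i => ?_⟩
  obtain ⟨C, a, b, hC, hab⟩ := hσ i
  exact ⟨C, a, b, h3 C hC, hab⟩

end Pool.Agent.H95.WC
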